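import Mathlib
import Pool.Agent.V11124.FlLit

/-!
# The adjacency determinant of an `R`-disjoint graph

For every `R`-disjoint graph the determinant of the adjacency matrix is the product of the
determinants of the parts of the flower decomposition.

Outline.  Matchings are handled as involutions.  All flowers with blossom `C` are generated from
blossoms with exposed base by exchange moves (match the exposed root `r` with a neighbour `u`
outside the flower, exposing the old partner of `u`).  Following the alternating sequence of two
maximum matchings until it hits the flower or stops, one shows that no maximum matching leaves a
reach set `R(C)` (every other possibility gives an augmentation or a second odd cycle through a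
vertex of `R(C)`).  Hence every maximum matching exposes a vertex of each `R(C)`, so at least as
many vertices as there are odd cycles.  If `σ` is a permutation with `v` adjacent to `σ v` for all
`v`, then pairing off the orbits of `σ` gives a matching with at most that many exposed vertices,
which is therefore maximum, so `σ` does not leave any `R(C)`; the determinant splits into blocks.
-/

namespace Pool.Agent.Results.MP_079569_co.FlowerDeterminant

open Pool.Agent.V11124.Flower

open Classical in
theorem result {V : Type*} [Fintype V] [DecidableEq V] (G : SimpleGraph V) (h : RDisjoint G) :
    (G.adjMatrix ℝ).det = ((G.induce (rest G)).adjMatrix ℝ).det *
      ∏ C : {C : G.Subgraph // IsOddCyc G C}, ((G.induce (reach G C.1)).adjMatrix ℝ).det :=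
  det_main h

end Pool.Agent.Results.MP_079569_co.FlowerDeterminant
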